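import Pool.Agent.W2helper58.SS.Stm
import Pool.Agent.W2helper58.GF.Neg
import Pool.Agent.H620R2.GaugeX.NonNullX

/-!
# The construction: tables at hidden places
-/

namespace Pool.Agent.W2helper58.SS

open Pool.Agent.NPC Pool.Agent.H620R2.Gauge Pool.Agent.H622R2 Pool.Agent.W2helper58.GF

theorem exists_ofFn_eq {s : List Bool} {d : ℕ} (hs : s.length = d) :
    ∃ s' : Fin d → Bool, List.ofFn s' = s := by
  subst hs
  exact ⟨s.get, List.ofFn_get s⟩

/-- The data of the construction. -/
structure Stg : Type where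
  /-- the requirement of stage `i` -/
  D : ℕ → Alg
  /-- the requirement of stage `i` -/
  G : ℕ → Alg
  /-- the requirement of stage `i` -/
  r : ℕ → ℚ
  /-- the length of the strings of stage `i` -/
  a : ℕ → ℕ
  /-- the strings asked at stage `i` -/
  Q : ℕ → Oracle → Finset (List Bool)
  /-- a bound for their number and length -/
  w : ℕ → ℕ
  hcard : ∀ i B, (Q i B).card ≤ w i
  hlen : ∀ i B, ∀ q ∈ Q i B, q.length ≤ w i
  hloc : ∀ i B B', (∀ q ∈ Q i B, B' q = B q) →
    rv (D i) (G i) (r i) (a i) B' = rv (D i) (G i) (r i) (a i) B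
  hk : ∀ i, kk (r i) (a i) ≤ a i
  hw : ∀ i, w i + 1 ≤ 2 ^ (a i - kk (r i) (a i))
  hstep : ∀ i j, i < j → a i + w i < a j

namespace Stg

variable (S : Stg)

/-- number of bits of the table of stage `i` -/
noncomputable def k (i : ℕ) : ℕ := kk (S.r i) (S.a i)

theorem a_lt {i j : ℕ} (h : i < j) : S.a i < S.a j := by
  have := S.hstep i j h
  omega

theorem a_le {i j : ℕ} (h : i ≤ j) : S.a i ≤ S.a j := by
  rcases Nat.lt_or_eq_of_le h with h | rfl
  · exact (S.a_lt h).le
  · exact le_rfl

theorem le_a (i : ℕ) : i ≤ S.a i := by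
  induction i with
  | zero => exact Nat.zero_le _
  | succ i ih =>
    have : S.a i < S.a (i + 1) := S.a_lt (Nat.lt_succ_self i)
    omega

/-- the string of the key number `j` -/
noncomputable def ks (i j : ℕ) : List Bool := bitsOf (S.a i - S.k i) j

theorem length_ks (i j : ℕ) : (S.ks i j).length = S.a i - S.k i := length_bitsOf _ _

/-- there is a key such that nobody asks for the strings behind it -/
theorem exists_key (i : ℕ) (B : Oracle) : ∃ j, j ≤ S.w i ∧
    ∀ u : List Bool, u.length = S.k i → S.ks i j ++ u ∉ S.Q i B := by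
  by_contra h
  push Not at h
  choose! u hu1 hu2 using h
  have h1 := Finset.card_le_card_of_injOn (s := Finset.range (S.w i + 1)) (t := S.Q i B)
    (fun j => S.ks i j ++ u j) (fun j hj => by
      rw [Finset.coe_range, Set.mem_Iio] at hj
      exact hu2 j (by omega)) (by
      intro j hj j' hj' he
      rw [Finset.coe_range, Set.mem_Iio] at hj hj'
      have h2 := (List.append_inj he (by rw [S.length_ks, S.length_ks])).1
      have h3 := S.hw i
      exact bitsOf_inj (lt_of_lt_of_le hj h3) (lt_of_lt_of_le hj' h3) h2)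
  rw [Finset.card_range] at h1
  have := S.hcard i B
  omega

/-- the key of stage `i` -/
noncomputable def key (i : ℕ) (B : Oracle) : ℕ := (S.exists_key i B).choose

theorem key_le (i : ℕ) (B : Oracle) : S.key i B ≤ S.w i := (S.exists_key i B).choose_spec.1

theorem key_spec (i : ℕ) (B : Oracle) {u : List Bool} (hu : u.length = S.k i) :
    S.ks i (S.key i B) ++ u ∉ S.Q i B := (S.exists_key i B).choose_spec.2 u hu

/-- the strings behind the key number `j` -/
def Blk (i j : ℕ) (y : List Bool) : Prop :=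
  y.length = S.a i ∧ y.take (S.a i - S.k i) = S.ks i j

theorem blk_append (i j : ℕ) {u : List Bool} (hu : u.length = S.k i) :
    S.Blk i j (S.ks i j ++ u) := by
  have h1 : S.k i ≤ S.a i := S.hk i
  constructor
  · rw [List.length_append, S.length_ks, hu]
    omega
  · rw [List.take_left' (S.length_ks i j)]

theorem eq_of_blk {i j : ℕ} {y : List Bool} (h : S.Blk i j y) :
    y = S.ks i j ++ y.drop (S.a i - S.k i) ∧ (y.drop (S.a i - S.k i)).length = S.k i := by
  have h1 : S.k i ≤ S.a i := S.hk i
  obtain ⟨h2, h3⟩ := h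
  constructor
  · rw [← h3, List.take_append_drop]
  · rw [List.length_drop]
    omega

/-- the set of the prefixes -/
noncomputable def tab (i : ℕ) (B : Oracle) : Set (List Bool) :=
  (rv (S.D i) (S.G i) (S.r i) (S.a i) B).2

open Classical in
/-- stage `i` -/
noncomputable def plant (i : ℕ) (B : Oracle) : Oracle := fun y =>
  if S.Blk i (S.key i B) y then decide (y.drop (S.a i - S.k i) ∈ S.tab i B) else B y

/-- the oracle before stage `i` -/
noncomputable def BB : ℕ → Oracle → Oracle
  | 0, A => A
  | i + 1, A => S.plant i (BB i A)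

/-- the final oracle -/
noncomputable def Phi (A : Oracle) : Oracle := fun y => S.BB (y.length + 1) A y

theorem plant_of_len (i : ℕ) (B : Oracle) {y : List Bool} (h : y.length ≠ S.a i) :
    S.plant i B y = B y := by
  unfold plant
  rw [if_neg]
  rintro ⟨h1, -⟩
  exact h h1

theorem BB_stable (A : Oracle) {y : List Bool} {i j : ℕ} (hij : i ≤ j)
    (h : ∀ m, i ≤ m → m < j → y.length ≠ S.a m) : S.BB j A y = S.BB i A y := by
  induction j, hij using Nat.le_induction with
  | base => rfl
  | succ j hj ih =>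
    change S.plant j (S.BB j A) y = _
    rw [S.plant_of_len j _ (h j hj (Nat.lt_succ_self j))]
    exact ih fun m h1 h2 => h m h1 (h2.trans (Nat.lt_succ_self j))

theorem Phi_eq (A : Oracle) {y : List Bool} {i : ℕ} (h : y.length < S.a i) :
    S.Phi A y = S.BB i A y := by
  unfold Phi
  rcases le_total i (y.length + 1) with h1 | h1
  · refine S.BB_stable A h1 fun m hm _ => ?_
    have := S.a_le hm
    omega
  · refine (S.BB_stable A h1 fun m hm _ => ?_).symm
    have := S.le_a m
    omega

/-- before stage `i`, the strings of length `a i` are untouched -/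
theorem BB_len (A : Oracle) {y : List Bool} {i : ℕ} (h : y.length = S.a i) :
    S.BB i A y = A y := by
  have h1 : S.BB i A y = S.BB 0 A y := by
    refine S.BB_stable A (Nat.zero_le i) fun m _ hm => ?_
    have := S.a_lt hm
    omega
  exact h1

theorem Phi_succ (A : Oracle) {y : List Bool} {i : ℕ} (h : y.length ≤ S.a i + S.w i) :
    S.Phi A y = S.plant i (S.BB i A) y := by
  refine S.Phi_eq A (i := i + 1) ?_
  have h1 := S.hstep i (i + 1) (Nat.lt_succ_self i)
  omega

theorem Phi_Q (A : Oracle) (i : ℕ) {q : List Bool} (hq : q ∈ S.Q i (S.BB i A)) :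
    S.Phi A q = S.BB i A q := by
  rw [S.Phi_succ A (i := i) (by have := S.hlen i _ q hq; omega)]
  unfold plant
  rw [if_neg]
  intro h
  obtain ⟨h1, h2⟩ := S.eq_of_blk h
  rw [h1] at hq
  exact S.key_spec i _ h2 hq

/-- the requirement has the same value for the final oracle -/
theorem rv_Phi (A : Oracle) (i : ℕ) : rv (S.D i) (S.G i) (S.r i) (S.a i) (S.Phi A) =
    rv (S.D i) (S.G i) (S.r i) (S.a i) (S.BB i A) :=
  S.hloc i _ _ fun _ hq => S.Phi_Q A i hq

/-- the key string -/
noncomputable def kst (A : Oracle) (i : ℕ) : List Bool := S.ks i (S.key i (S.BB i A))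

theorem length_kst (A : Oracle) (i : ℕ) : (S.kst A i).length = S.a i - S.k i := S.length_ks _ _

open Classical in
theorem Phi_tab (A : Oracle) (i : ℕ) {u : List Bool} (hu : u.length = S.k i) :
    S.Phi A (S.kst A i ++ u) = true ↔ u ∈ S.tab i (S.Phi A) := by
  have hb := S.blk_append i (S.key i (S.BB i A)) hu
  have h1 : S.Phi A (S.kst A i ++ u) = S.plant i (S.BB i A) (S.kst A i ++ u) := by
    apply S.Phi_succ
    have := hb.1
    unfold kst
    omega
  have h2 : (S.kst A i ++ u).drop (S.a i - S.k i) = u := by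
    rw [List.drop_left' (S.length_kst A i)]
  rw [h1]
  unfold plant
  rw [if_pos (by exact hb), h2, decide_eq_true_eq]
  unfold tab
  rw [S.rv_Phi A i]

theorem not_gen {c : ℝ} (hlook : P_look2) {m₀ : ℕ → ℕ} (h₀ : ∀ i, m₀ i ≤ S.a i)
    (hg : ∀ (D G : Alg) (r : ℚ) (b : ℕ), 0 < r → (r : ℝ) < c →
      ∃ i, S.D i = D ∧ S.G i = G ∧ S.r i = r ∧ b ≤ m₀ i) (A : Oracle) {c' : ℝ} (hc : c' < c)
    (hc0 : 0 < c) : ¬ SeedGen c' (S.Phi A) := by
  classical
  rintro ⟨D, G, ⟨MD, hD⟩, ⟨MG, hG⟩, hlen, h⟩
  obtain ⟨r, hr1, hr2⟩ := exists_rat_btwn (max_lt hc hc0)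
  have hr0 : (0 : ℝ) < r := (le_max_right _ _).trans_lt hr1
  have hrc : c' < r := (le_max_left _ _).trans_lt hr1
  obtain ⟨b, hb⟩ := Filter.eventually_atTop.1 h
  obtain ⟨i, e1, e2, e3, e4⟩ := hg MD MG r b (by exact_mod_cast hr0) hr2
  have h1 := h₀ i
  obtain ⟨h2, h3, h4⟩ := hb (S.a i + 1) (by omega)
  have hki : S.k i ≤ S.a i := S.hk i
  set d := (D (un (S.a i + 1))).length with hd
  have hseed : seedLen MD (S.a i + 1) (S.Phi A) = d := by
    unfold seedLen
    rw [hD]
    rfl
  have hlog : 0 ≤ Real.logb 2 ((S.a i + 1 : ℕ) : ℝ) := by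
    apply Real.logb_nonneg (by norm_num)
    exact_mod_cast Nat.succ_le_succ (Nat.zero_le _)
  have h5 : (d : ℝ) ≤ (r : ℝ) * Real.logb 2 ((S.a i + 1 : ℕ) : ℝ) :=
    h2.trans (mul_le_mul_of_nonneg_right hrc.le hlog)
  have htab : S.tab i (S.Phi A) = {u | ∃ s : List Bool, s.length = d ∧
      u = pref (S.k i) (G (pairBits (un (S.a i + 1)) s))} := by
    unfold tab rv k
    rw [e1, e2, e3]
    simp only [hseed, hG, Option.getD_some]
    rw [if_pos h5]
  -- the circuit
  obtain ⟨C, hC1, hC2⟩ := hlook (S.kst A i) (S.k i)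
  rw [S.length_kst A i] at hC1
  have h6 := h4 C (by omega)
  have hpl : ∀ x : List Bool, (pref (S.k i) x).length = S.k i := by
    intro x
    unfold pref
    simp
  have hval : ∀ x : List Bool, C.eval (S.Phi A) x = true ↔
      pref (S.k i) x ∈ S.tab i (S.Phi A) := by
    intro x
    rw [hC2]
    exact S.Phi_tab A i (hpl x)
  -- the generator is always accepted
  have e5 : pr d (fun s => C.eval (S.Phi A) (G (pairBits (un (S.a i + 1)) s)) = true) = 1 := by
    unfold pr
    have h7 : ∀ w : Fin d → Bool,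
        C.eval (S.Phi A) (G (pairBits (un (S.a i + 1)) (List.ofFn w))) = true := by
      intro w
      rw [hval, htab]
      exact ⟨List.ofFn w, List.length_ofFn, rfl⟩
    have h8 : Nat.card {w : Fin d → Bool //
        C.eval (S.Phi A) (G (pairBits (un (S.a i + 1)) (List.ofFn w))) = true} = 2 ^ d := by
      rw [Nat.card_congr (Equiv.subtypeUnivEquiv h7)]
      simp
    rw [h8]
    push_cast
    exact div_self (by positivity)
  -- a random string is rarely accepted
  have e6 : pr (S.a i + 1) (fun x => C.eval (S.Phi A) x = true) =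
      pr (S.k i) (fun u => u ∈ S.tab i (S.Phi A)) := by
    rw [← pr_take (S.a i + 1) (S.k i) (by omega)]
    congr 1
    funext x
    rw [eq_iff_iff, hval]
    rfl
  have e7 : pr (S.k i) (fun u => u ∈ S.tab i (S.Phi A)) ≤ 1 / 16 := by
    unfold pr
    rw [div_le_iff₀ (by positivity)]
    have h7 : Nat.card {w : Fin (S.k i) → Bool // List.ofFn w ∈ S.tab i (S.Phi A)} ≤ 2 ^ d := by
      have h8 : ∀ w : {w : Fin (S.k i) → Bool // List.ofFn w ∈ S.tab i (S.Phi A)},
          ∃ s : Fin d → Bool, List.ofFn w.1 =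
            pref (S.k i) (G (pairBits (un (S.a i + 1)) (List.ofFn s))) := by
        rintro ⟨w, hw⟩
        rw [htab] at hw
        obtain ⟨s, hs, he⟩ := hw
        obtain ⟨s', rfl⟩ := exists_ofFn_eq hs
        exact ⟨s', he⟩
      choose g hg' using h8
      have h9 : Function.Injective g := by
        intro w w' he
        have h10 := hg' w
        rw [he, ← hg' w'] at h10
        exact Subtype.ext (List.ofFn_injective h10)
      have h11 := Nat.card_le_card_of_injective g h9
      simpa using h11
    have h12 : d + 4 ≤ S.k i := by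
      unfold k kk
      rw [e3]
      have := Nat.le_floor h5
      omega
    have h13 : (2 : ℝ) ^ (d + 4) ≤ 2 ^ S.k i := pow_le_pow_right₀ (by norm_num) h12
    have h14 : ((Nat.card {w : Fin (S.k i) → Bool // List.ofFn w ∈ S.tab i (S.Phi A)} : ℕ) : ℝ) ≤
        2 ^ d := by exact_mod_cast h7
    rw [pow_add] at h13
    linarith
  rw [e5, e6] at h6
  have h15 := abs_le.1 h6
  linarith [h15.2]

end Stg

end Pool.Agent.W2helper58.SS
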