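import Pool.Agent.W2helper58.SS.Stm
import Pool.Agent.W2helper58.GF.Up

/-!
# The null side: the oracle itself is a generator with seeds of length `(p/q) log₂ m`
-/

namespace Pool.Agent.W2helper58.SS

open Pool.Agent.NPC Pool.Agent.H620R2.Gauge Pool.Agent.H622R2 Pool.Agent.W2helper58.GF

theorem null_gen2 (hcov : P_cover) (hlim : P_limsup) {f : ℕ → ℝ} {K p q : ℕ}
    (hcount : ∀ m : ℕ, ∃ s : Finset Circuit,
      s.card ≤ 2 ^ (K * (m + 1) * Nat.size (m + 1)) ∧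
      (∀ C ∈ s, ∀ A A' : Oracle, (∀ y : List Bool, y.length < m → A y = A' y) →
        ∀ x, C.eval A x = C.eval A' x) ∧
      ∀ C : Circuit, C.size ≤ m → ∃ C' ∈ s, ∀ (A : Oracle) (x : List Bool), x.length = m →
        C'.eval A x = C.eval A x)
    (hK : ∀ᶠ m : ℕ in Filter.atTop, ∃ N : ℕ, 2 ^ (sd p q m + m + 1) ≤ N ∧
      (2 : ℝ) ^ (K * (m + 1) * Nat.size (m + 1)) *
        (2 * Real.exp (-(2 ^ (sd p q m) : ℝ) / 256)) * 2 ^ f N ≤ (1 / 2) ^ m) :
    Null f {A | ∃ᶠ m : ℕ in Filter.atTop, BadG2 p q m A} := by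
  classical
  refine hlim f (fun m => {A | BadG2 p q m A}) ?_
  filter_upwards [hK] with m hm
  obtain ⟨N, hN, hb⟩ := hm
  obtain ⟨s, hs1, hs2, hs3⟩ := hcount m
  obtain ⟨S, hS1, hS2⟩ := hcov (Fin (sd p q m) → Bool) s m (sd p q m + m) N hN
    (fun r j => sadr (List.ofFn r) m j)
    (fun r i r' i' h => by
      obtain ⟨h1, h2⟩ := sadr_inj (by simp) h
      exact ⟨List.ofFn_injective h1, Fin.ext h2⟩)
    (fun r i => by rw [length_sadr _ i.2.le, List.length_ofFn])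
    (fun C A v => C.1.eval A (List.ofFn v) = true)
    (fun C A A' h => by
      funext v
      rw [hs2 C.1 C.2 A A' (fun y hy => h y (by omega))]) f ((1 / 2) ^ m) (by
      refine le_trans ?_ hb
      have h1 : (Fintype.card s : ℝ) ≤ 2 ^ (K * (m + 1) * Nat.size (m + 1)) := by
        rw [Fintype.card_coe]
        exact_mod_cast hs1
      have h2 : ((Fintype.card (Fin (sd p q m) → Bool) : ℕ) : ℝ) = 2 ^ (sd p q m) := by simp
      rw [h2]
      gcongr)
  refine ⟨S, ?_, hS2⟩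
  rintro A ⟨C, hC, hlt⟩
  obtain ⟨C', hC', he⟩ := hs3 C hC
  apply hS1 A
  refine ⟨⟨C', hC'⟩, ?_⟩
  have e1 : ∀ v : Fin m → Bool, C'.eval A (List.ofFn v) = C.eval A (List.ofFn v) :=
    fun v => he A _ (List.length_ofFn)
  simp only [e1]
  have h2 : ((Fintype.card (Fin (sd p q m) → Bool) : ℕ) : ℝ) = 2 ^ (sd p q m) := by simp
  rw [h2]
  exact hlt

/-- larger constants are weaker -/
theorem SeedGen.mono {c c' : ℝ} (h : c ≤ c') {A : Oracle} (hA : SeedGen c A) : SeedGen c' A := by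
  obtain ⟨D, G, hD, hG, hlen, hev⟩ := hA
  refine ⟨D, G, hD, hG, hlen, ?_⟩
  filter_upwards [hev, Filter.eventually_ge_atTop 1] with m hm h1
  obtain ⟨h2, h3, h4⟩ := hm
  refine ⟨h2.trans ?_, h3, h4⟩
  refine mul_le_mul_of_nonneg_right h ?_
  apply Real.logb_nonneg (by norm_num)
  exact_mod_cast h1

/-- the null side -/
theorem upper2 (hcov : P_cover) (hlim : P_limsup) (hcount : P_count2) (hgen : P_gen2)
    (hasym : P_asym2) {f : ℕ → ℝ} {c C : ℝ} (hc : 1 < c) (hC : C < c)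
    (hf : ∀ᶠ N : ℕ in Filter.atTop, ∃ N' ≥ N, f N' ≤ (Real.logb 2 N) ^ C) :
    Null f {A | ∀ c' < c, ¬ SeedGen c' A} := by
  obtain ⟨x, hx1, hx2⟩ := exists_rat_btwn (max_lt hc hC)
  have hx0 : (0 : ℝ) < x := lt_trans one_pos ((le_max_left _ _).trans_lt hx1)
  have hx0' : 0 < x := by exact_mod_cast hx0
  have hnum : 0 ≤ x.num := (Rat.num_pos.2 hx0').le
  obtain ⟨p, hp⟩ := Int.eq_ofNat_of_zero_le hnum
  have hq : 0 < x.den := x.den_pos
  have hpq : ((p : ℝ) / x.den) = x := by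
    have h1 : (x : ℝ) = (x.num : ℝ) / (x.den : ℝ) := by exact_mod_cast (Rat.num_div_den x).symm
    rw [h1, hp]
    simp
  obtain ⟨K, hK⟩ := hcount
  have h1 := null_gen2 (p := p) (q := x.den) hcov hlim hK
    (hasym f C K p x.den hq (by rw [hpq]; exact (le_max_left _ _).trans_lt hx1)
      (by rw [hpq]; exact (le_max_right _ _).trans_lt hx1) hf)
  refine h1.mono ?_
  intro A hA
  by_contra hcon
  apply hA (x : ℝ) hx2
  rw [← hpq]
  exact hgen p x.den A hq (Filter.not_frequently.1 hcon)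

end Pool.Agent.W2helper58.SS
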