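import Pool.Agent.W2helper58.SS.Low
import Pool.Agent.W2helper58.SS.Up
import Pool.Agent.W2helper3.GF.Cover
import Pool.Agent.W2helper86.GF.Limsup
import Pool.Agent.W2helper23.SS.Loc
import Pool.Agent.W2helper85.SS.Asym2
import Pool.Agent.W2helper95.SS.Gen

/-!
# The spectrum of the seed lengths: the final steps
-/

namespace Pool.Agent.W2helper58.SS

open Pool.Agent.NPC Pool.Agent.H620R2.Gauge Pool.Agent.H622R2 Pool.Agent.W2helper58.GF

/-- the condition for the gauge -/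
def Cnd (f : ℕ → ℝ) (C : ℝ) : Prop :=
  ∀ᶠ N : ℕ in Filter.atTop, ∃ N' ≥ N, f N' ≤ (Real.logb 2 N) ^ C

theorem logb_ge_one {N : ℕ} (h : 2 ≤ N) : 1 ≤ Real.logb 2 (N : ℝ) := by
  rw [Real.le_logb_iff_rpow_le (by norm_num) (by positivity)]
  rw [Real.rpow_one]
  exact_mod_cast h

theorem Cnd.mono {f : ℕ → ℝ} {C C' : ℝ} (h : C ≤ C') (hf : Cnd f C) : Cnd f C' := by
  unfold Cnd at hf ⊢
  filter_upwards [hf, Filter.eventually_ge_atTop 2] with N h1 h2
  obtain ⟨N', h3, h4⟩ := h1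
  exact ⟨N', h3, h4.trans (Real.rpow_le_rpow_of_exponent_le (logb_ge_one h2) h)⟩

theorem key1 (hcount : P_count2) (hlook : P_look2) (hmass : P_mass2) {f : ℕ → ℝ} {c : ℝ}
    (hc : 1 < c) : Null f {A | ∀ c' < c, ¬ SeedGen c' A} ↔ ∃ C < c, Cnd f C := by
  constructor
  · intro h
    by_contra hcon
    push Not at hcon
    refine lower2 Pool.Agent.W2helper23.SS.p_local2 Pool.Agent.W2helper85.SS.p_stage2 hlook hmass
      hc (fun C hC => ?_) _ (fun A hA => hA) h
    have h1 := hcon C hC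
    unfold Cnd at h1
    rw [Filter.not_eventually] at h1
    refine h1.mono fun N hN => ?_
    push Not at hN
    exact hN
  · rintro ⟨C, hC, h⟩
    exact upper2 Pool.Agent.W2helper3.GF.p_cover Pool.Agent.W2helper58.GF.p_limsup hcount
      Pool.Agent.W2helper95.SS.p_gen2 Pool.Agent.W2helper85.SS.p_asym2 hc hC h

theorem set_gt (c : ℝ) : {A : Oracle | ∃ c' > c, ¬ SeedGen c' A} =
    ⋃ n : ℕ, {A : Oracle | ∀ c' < c + 1 / ((n : ℝ) + 1), ¬ SeedGen c' A} := by
  ext A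
  simp only [Set.mem_ofPred_eq, Set.mem_iUnion]
  constructor
  · rintro ⟨c', hc, h⟩
    obtain ⟨n, hn⟩ := exists_nat_one_div_lt (sub_pos.2 hc)
    refine ⟨n, fun c'' hc'' hS => h (hS.mono ?_)⟩
    linarith
  · rintro ⟨n, hn⟩
    have h0 : (0 : ℝ) < 1 / ((n : ℝ) + 1) := by positivity
    refine ⟨c + 1 / ((n : ℝ) + 1) / 2, by linarith [h0], hn _ ?_⟩
    linarith

theorem key2 (hcount : P_count2) (hlook : P_look2) (hmass : P_mass2) {f : ℕ → ℝ} {c : ℝ}
    (hc : 1 ≤ c) : Null f {A | ∃ c' > c, ¬ SeedGen c' A} ↔ ∀ C > c, Cnd f C := by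
  have h0 : ∀ n : ℕ, (0 : ℝ) < 1 / ((n : ℝ) + 1) := fun n => by positivity
  rw [set_gt]
  constructor
  · intro h C hC
    obtain ⟨n, hn⟩ := exists_nat_one_div_lt (sub_pos.2 hC)
    have h1 : Null f {A : Oracle | ∀ c' < c + 1 / ((n : ℝ) + 1), ¬ SeedGen c' A} :=
      h.mono (Set.subset_iUnion (fun n : ℕ =>
        {A : Oracle | ∀ c' < c + 1 / ((n : ℝ) + 1), ¬ SeedGen c' A}) n)
    rw [key1 hcount hlook hmass (by linarith [h0 n])] at h1
    obtain ⟨C', h2, h3⟩ := h1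
    exact h3.mono (by linarith)
  · intro h
    refine null_iUnion (f := f) _ fun n => ?_
    rw [key1 hcount hlook hmass (by linarith [h0 n])]
    exact ⟨c + 1 / ((n : ℝ) + 1) / 2, by linarith [h0 n], h _ (by linarith [h0 n])⟩

theorem key3 (hcount : P_count2) (hlook : P_look2) (hmass : P_mass2) {c : ℝ} (hc : 1 < c) :
    ¬ Null (fun N : ℕ => (Real.logb 2 N) ^ c)
      {A | (∀ c' < c, ¬ SeedGen c' A) ∧ ∀ c' > c, SeedGen c' A} := by
  intro h
  have h1 : Null (fun N : ℕ => (Real.logb 2 N) ^ c) {A | ∃ c' > c, ¬ SeedGen c' A} := by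
    rw [key2 hcount hlook hmass hc.le]
    intro C hC
    unfold Cnd
    filter_upwards [Filter.eventually_ge_atTop 2] with N h2
    exact ⟨N, le_rfl, Real.rpow_le_rpow_of_exponent_le (logb_ge_one h2) hC.le⟩
  have h2 : Null (fun N : ℕ => (Real.logb 2 N) ^ c) {A | ∀ c' < c, ¬ SeedGen c' A} := by
    refine (null_union h h1).mono ?_
    intro A hA
    by_cases hB : ∀ c' > c, SeedGen c' A
    · exact Or.inl ⟨hA, hB⟩
    · right
      push Not at hB
      exact hB
  rw [key1 hcount hlook hmass hc] at h2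
  obtain ⟨C, hC, h3⟩ := h2
  unfold Cnd at h3
  obtain ⟨N, h4, h5⟩ := (h3.and (Filter.eventually_ge_atTop 3)).exists
  obtain ⟨N', h6, h7⟩ := h4
  have h8 : 1 < Real.logb 2 (N : ℝ) := by
    rw [Real.lt_logb_iff_rpow_lt (by norm_num) (by positivity)]
    rw [Real.rpow_one]
    exact_mod_cast (show 2 < N by omega)
  have h9 : (Real.logb 2 (N : ℝ)) ^ C < (Real.logb 2 (N : ℝ)) ^ c :=
    Real.rpow_lt_rpow_of_exponent_lt h8 hC
  have h10 : (Real.logb 2 (N : ℝ)) ^ c ≤ (Real.logb 2 (N' : ℝ)) ^ c := by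
    apply Real.rpow_le_rpow (by linarith)
    · apply Real.logb_le_logb_of_le (by norm_num)
      · exact_mod_cast (show 0 < N by omega)
      · exact_mod_cast h6
    · linarith
  simp only at h7
  linarith

end Pool.Agent.W2helper58.SS
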