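import Pool.Agent.W2helper58.SS.Cons
import Pool.Agent.W2helper58.GF.Low

/-!
# The other side: the choice of the lengths and the mass argument
-/

namespace Pool.Agent.W2helper58.SS

open Pool.Agent.NPC Pool.Agent.H620R2.Gauge Pool.Agent.H622R2 Pool.Agent.W2helper58.GF

/-- The requirements for the constant `c`. -/
abbrev Rq2 (c : ℝ) : Type := Alg × Alg × {r : ℚ // 0 < r ∧ (r : ℝ) < c} × ℕ

theorem exists_rq2 {c : ℝ} (hc : 1 < c) : ∃ g : ℕ → Rq2 c, Function.Surjective g := by
  obtain ⟨a, ha⟩ := exists_alg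
  have h0 : Nonempty {r : ℚ // 0 < r ∧ (r : ℝ) < c} := ⟨⟨1, one_pos, by exact_mod_cast hc⟩⟩
  have h1 : Nonempty (Rq2 c) := ⟨(a 0, a 0, Classical.choice h0, 0)⟩
  have h2 : Countable Alg := ha.countable
  exact exists_surjective_nat _

theorem exists_stg2 (hloc : P_local2) (hst : P_stage2) {f : ℕ → ℝ} {c : ℝ} (hc : 1 < c)
    (hf : ∀ C < c, ∃ᶠ N : ℕ in Filter.atTop, ∀ N' ≥ N, (Real.logb 2 N) ^ C < f N') :
    ∃ (S : Stg) (m₀ : ℕ → ℕ), (∀ i, m₀ i ≤ S.a i) ∧
      (∀ (D G : Alg) (r : ℚ) (b : ℕ), 0 < r → (r : ℝ) < c →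
        ∃ i, S.D i = D ∧ S.G i = G ∧ S.r i = r ∧ b ≤ m₀ i) ∧
      ∀ i N, 2 ^ S.a i ≤ N →
        ((∑ j ∈ Finset.range (i + 1), (2 ^ S.k j + Nat.size (S.w j)) : ℕ) : ℝ) ≤ f N := by
  classical
  obtain ⟨g, hg⟩ := exists_rq2 hc
  choose P hP using fun i => hloc (g i).1 (g i).2.1 (g i).2.2.1.1
  choose a h1 h2 h3 h4 using fun (i : ℕ) (prev : ℕ) =>
    hst f c hc hf (g i).2.2.1.1 (g i).2.2.1.2.1 (g i).2.2.1.2.2 (P i) prev
  let cs : ℕ → ℕ → ℕ := fun i p => 2 ^ kk (g i).2.2.1.1 (a i p) + Nat.size ((P i).eval (a i p))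
  let nx : ℕ → ℕ → ℕ := fun i p => p + cs i p + a i p + (P i).eval (a i p) + (g (i + 1)).2.2.2
  let pv : ℕ → ℕ := fun i => Nat.rec (g 0).2.2.2 nx i
  have hpv0 : pv 0 = (g 0).2.2.2 := rfl
  have hpvs : ∀ i, pv (i + 1) = nx i (pv i) := fun i => rfl
  have hmono : ∀ i j, i ≤ j → pv i ≤ pv j := by
    intro i j hij
    induction j, hij using Nat.le_induction with
    | base => exact le_rfl
    | succ j _ ih =>
      rw [hpvs]
      simp only [nx]
      omega
  have hm : ∀ i, (g i).2.2.2 ≤ pv i := by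
    intro i
    cases i with
    | zero => rw [hpv0]
    | succ i => rw [hpvs]; simp only [nx]; omega
  have hsum : ∀ i, ∑ j ∈ Finset.range i, cs j (pv j) ≤ pv i := by
    intro i
    induction i with
    | zero => simp
    | succ i ih =>
      rw [Finset.sum_range_succ, hpvs]
      simp only [nx]
      omega
  choose Q hQ1 hQ2 hQ3 using fun (i : ℕ) (B : Oracle) => hP i (a i (pv i)) B
  refine ⟨⟨fun i => (g i).1, fun i => (g i).2.1, fun i => (g i).2.2.1.1, fun i => a i (pv i), Q,
    fun i => (P i).eval (a i (pv i)), hQ1, hQ2, hQ3, fun i => h2 i (pv i), fun i => h3 i (pv i),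
    ?_⟩, fun i => (g i).2.2.2, ?_, ?_, ?_⟩
  · intro i j hij
    have e1 := hmono (i + 1) j hij
    have e2 := h1 j (pv j)
    rw [hpvs] at e1
    simp only [nx] at e1
    omega
  · intro i
    have e1 := hm i
    have e2 := h1 i (pv i)
    change (g i).2.2.2 ≤ a i (pv i)
    omega
  · intro D G r b hr hrc
    obtain ⟨i, hi⟩ := hg (D, G, ⟨r, hr, hrc⟩, b)
    refine ⟨i, ?_, ?_, ?_, ?_⟩
    · change (g i).1 = D
      rw [hi]
    · change (g i).2.1 = G
      rw [hi]
    · change (g i).2.2.1.1 = r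
      rw [hi]
    · change b ≤ (g i).2.2.2
      rw [hi]
  · intro i N hN
    refine le_trans ?_ (h4 i (pv i) N hN)
    have e := hsum i
    change ((∑ j ∈ Finset.range (i + 1), cs j (pv j) : ℕ) : ℝ) ≤ _
    rw [Finset.sum_range_succ]
    have e2 : ∑ x ∈ Finset.range i, cs x (pv x) + cs i (pv i) ≤
        pv i + 2 ^ kk (g i).2.2.1.1 (a i (pv i)) + Nat.size ((P i).eval (a i (pv i))) := by
      simp only [cs] at e ⊢
      omega
    exact_mod_cast e2

namespace Stg

variable (S : Stg)

/-- the set of the strings behind the chosen keys of the first `I` stages -/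
def TX (I : ℕ) (χ : Fin I → ℕ) : Set (List Bool) := {y | ∃ i : Fin I, S.Blk i (χ i) y}

open Classical in
theorem card_blk (i j N : ℕ) :
    ((Finset.range N).filter (fun n => S.Blk i j (str n))).card ≤ 2 ^ S.k i := by
  have h : ∀ n ∈ (Finset.range N).filter (fun n => S.Blk i j (str n)),
      ∃ u : Fin (S.k i) → Bool, str n = S.ks i j ++ List.ofFn u := by
    intro n hn
    rw [Finset.mem_filter] at hn
    obtain ⟨h1, h2⟩ := S.eq_of_blk hn.2
    obtain ⟨u, hu⟩ := exists_ofFn_eq h2
    exact ⟨u, by rw [hu]; exact h1⟩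
  choose! u hu using h
  have h1 := Finset.card_le_card_of_injOn (s := (Finset.range N).filter
      (fun n => S.Blk i j (str n))) (t := (Finset.univ : Finset (Fin (S.k i) → Bool))) u
      (fun n _ => Finset.mem_coe.2 (Finset.mem_univ _)) (by
        intro n hn n' hn' he
        apply str_injective
        rw [hu n hn, hu n' hn', he])
  refine h1.trans (le_of_eq ?_)
  simp

open Classical in
theorem card_TX (I : ℕ) (χ : Fin I → ℕ) (N : ℕ) :
    ((Finset.range N).filter (fun n => str n ∈ S.TX I χ)).card ≤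
      ∑ j ∈ Finset.range I, 2 ^ S.k j := by
  have h1 : (Finset.range N).filter (fun n => str n ∈ S.TX I χ) ⊆
      (Finset.univ : Finset (Fin I)).biUnion fun i =>
        (Finset.range N).filter (fun n => S.Blk i (χ i) (str n)) := by
    intro n hn
    rw [Finset.mem_filter] at hn
    obtain ⟨h2, i, hi⟩ := hn
    rw [Finset.mem_biUnion]
    exact ⟨i, Finset.mem_univ _, Finset.mem_filter.2 ⟨h2, hi⟩⟩
  refine (Finset.card_le_card h1).trans (Finset.card_biUnion_le.trans
    ((Finset.sum_le_sum fun i _ => S.card_blk _ _ _).trans (le_of_eq ?_)))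
  exact Fin.sum_univ_eq_sum_range (fun j => 2 ^ S.k j) I

/-- the family of the choices -/
noncomputable def fam (I : ℕ) : Finset (Set (List Bool)) :=
  letI := Classical.decEq (Set (List Bool))
  (Fintype.piFinset fun i : Fin I => Finset.range (S.w i + 1)).image (S.TX I)

theorem card_fam (I : ℕ) : (S.fam I).card ≤ 2 ^ ∑ j ∈ Finset.range I, Nat.size (S.w j) := by
  classical
  unfold fam
  refine Finset.card_image_le.trans ?_
  rw [Fintype.card_piFinset]
  simp only [Finset.card_range]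
  have h : ∀ i : Fin I, S.w i + 1 ≤ 2 ^ Nat.size (S.w i) := fun i => Nat.lt_size_self _
  refine (Finset.prod_le_prod' fun i _ => h i).trans (le_of_eq ?_)
  rw [Finset.prod_pow_eq_pow_sum]
  congr 1
  exact Fin.sum_univ_eq_sum_range (fun j => Nat.size (S.w j)) I

/-- the mass argument -/
theorem not_null_Phi (hmass : P_mass2) {f : ℕ → ℝ} (hS : ∀ i N, 2 ^ S.a i ≤ N →
    ((∑ j ∈ Finset.range (i + 1), (2 ^ S.k j + Nat.size (S.w j)) : ℕ) : ℝ) ≤ f N)
    (O : Set Oracle) (hO : ∀ A, S.Phi A ∈ O) : ¬ Null f O := by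
  classical
  -- the constant for the short sequences
  obtain ⟨c, hc0, hc⟩ : ∃ c : ℝ, 0 ≤ c ∧ ∀ N < 2 ^ S.a 0, 0 ≤ f N + c := by
    have h1 : ∀ m : ℕ, ∃ c : ℝ, 0 ≤ c ∧ ∀ N < m, 0 ≤ f N + c := by
      intro m
      induction m with
      | zero => exact ⟨0, le_rfl, fun N hN => by omega⟩
      | succ m ih =>
        obtain ⟨c, h1, h2⟩ := ih
        refine ⟨max c (- f m), le_max_of_le_left h1, ?_⟩
        intro N hN
        rcases Nat.lt_succ_iff_lt_or_eq.1 hN with h | h
        · have := h2 N h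
          have := le_max_left c (- f m)
          linarith
        · subst h
          have := le_max_right c (- f N)
          linarith
    exact h1 _
  refine hmass f S.Phi c ?_ O hO
  intro N
  -- the strings of a length which is not small
  have hsmall : ∀ (i : ℕ) (n : ℕ), n < N → (str n).length = S.a i → 2 ^ S.a i ≤ N := by
    intro i n hn hl
    have h2 := le_idx (str n)
    rw [idx_str, hl] at h2
    omega
  have hsame : ∀ (I : ℕ) (B : Oracle), (∀ j, 2 ^ S.a j ≤ N → j < I) → ∀ n < N,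
      str n ∉ S.TX I (fun i => S.key i (S.BB i B)) → S.Phi B (str n) = B (str n) := by
    intro I B hI n hn hnot
    unfold Phi
    have h1 : ∀ m, S.BB m B (str n) = B (str n) := by
      intro m
      induction m with
      | zero => rfl
      | succ m ih =>
        change S.plant m (S.BB m B) (str n) = _
        unfold plant
        rw [if_neg, ih]
        intro hb
        exact hnot ⟨⟨m, hI m (hsmall m n hn hb.1)⟩, hb⟩
    exact h1 _
  by_cases hN : N < 2 ^ S.a 0
  · refine ⟨S.fam 0, 0, 0, (S.card_fam 0).trans (by simp), ?_, ?_, ?_⟩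
    · intro T hT
      unfold fam at hT
      rw [Finset.mem_image] at hT
      obtain ⟨χ, -, rfl⟩ := hT
      exact (S.card_TX 0 χ N).trans (by simp)
    · simpa using hc N hN
    · intro B
      refine ⟨S.TX 0 (fun i => S.key i (S.BB i B)), ?_, ?_⟩
      · unfold fam
        rw [Finset.mem_image]
        exact ⟨_, Fintype.mem_piFinset.2 fun i => i.elim0, rfl⟩
      · refine hsame 0 B fun j hj => ?_
        exfalso
        have h3 : 2 ^ S.a 0 ≤ 2 ^ S.a j :=
          Nat.pow_le_pow_right (by norm_num) (S.a_le (Nat.zero_le j))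
        omega
  · -- the last stage that matters
    push Not at hN
    obtain ⟨i, hi1, hi2⟩ : ∃ i, 2 ^ S.a i ≤ N ∧ ∀ j, 2 ^ S.a j ≤ N → j ≤ i := by
      have hb : ∀ j, 2 ^ S.a j ≤ N → j ≤ N := by
        intro j hj
        have h1 := S.le_a j
        have h2 : S.a j < 2 ^ S.a j := Nat.lt_two_pow_self
        omega
      refine ⟨Nat.findGreatest (fun j => 2 ^ S.a j ≤ N) N, ?_, ?_⟩
      · exact Nat.findGreatest_spec (P := fun j => 2 ^ S.a j ≤ N) (Nat.zero_le N) hN
      · intro j hj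
        exact Nat.le_findGreatest (hb j hj) hj
    refine ⟨S.fam (i + 1), ∑ j ∈ Finset.range (i + 1), Nat.size (S.w j),
      ∑ j ∈ Finset.range (i + 1), 2 ^ S.k j, S.card_fam (i + 1), ?_, ?_, ?_⟩
    · intro T hT
      unfold fam at hT
      rw [Finset.mem_image] at hT
      obtain ⟨χ, -, rfl⟩ := hT
      exact S.card_TX _ χ N
    · have h1 := hS i N hi1
      have h2 : ∑ j ∈ Finset.range (i + 1), Nat.size (S.w j) +
          ∑ j ∈ Finset.range (i + 1), 2 ^ S.k j =
          ∑ j ∈ Finset.range (i + 1), (2 ^ S.k j + Nat.size (S.w j)) := by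
        rw [Finset.sum_add_distrib, Nat.add_comm]
      rw [h2]
      linarith
    · intro B
      refine ⟨S.TX (i + 1) (fun i => S.key i (S.BB i B)), ?_, ?_⟩
      · unfold fam
        rw [Finset.mem_image]
        refine ⟨_, Fintype.mem_piFinset.2 fun j => ?_, rfl⟩
        exact Finset.mem_range.2 (Nat.lt_succ_of_le (S.key_le _ _))
      · exact hsame (i + 1) B fun j hj => Nat.lt_succ_of_le (hi2 j hj)

end Stg

/-- The lower bound. -/
theorem lower2 (hloc : P_local2) (hst : P_stage2) (hlook : P_look2) (hmass : P_mass2)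
    {f : ℕ → ℝ} {c : ℝ} (hc : 1 < c)
    (hf : ∀ C < c, ∃ᶠ N : ℕ in Filter.atTop, ∀ N' ≥ N, (Real.logb 2 N) ^ C < f N')
    (O : Set Oracle) (hO : ∀ A, (∀ c' < c, ¬ SeedGen c' A) → A ∈ O) : ¬ Null f O := by
  obtain ⟨S, m₀, h1, h2, h3⟩ := exists_stg2 hloc hst hc hf
  refine S.not_null_Phi hmass h3 O fun A => hO _ fun c' hc' => ?_
  exact S.not_gen hlook h1 h2 A hc' (by linarith)

end Pool.Agent.W2helper58.SS
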