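import Pool.Agent.W2helper58.GF.Stm

/-!
# The spectrum of the seed lengths: definitions and pieces

Every `P_...` below is one piece; prove `theorem p_... : P_...` in a file of your own. The pieces
are variations of the pieces of `Pool.Agent.W2helper58.GF.Stm` (all proved: `W2helper86/GF/Count`,
`W2helper86/GF/Gen`, `W2helper85/GF/Asym`, `W2helper56/GF/Loc`, `W2helper12/GF/Stage`).
-/

namespace Pool.Agent.W2helper58.SS

open Pool.Agent.NPC Pool.Agent.H620R2.Gauge Pool.Agent.W2helper58.GF

/-- There is a generator against circuits relative to the oracle `A` with seed length at most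
`c log₂ m`: the seed length `d(m)` is the length of `D(1^m)`, the generator maps a seed `s` of this
length to the string `G ⟨1^m, s⟩` of length `m`, both functions are computable in polynomial time
relative to `A`, and for all large `m`, `d(m) ≤ c log₂ m`, `d(m) < m`, and every circuit of size
at most `m` with oracle gates for `A` has distinguishing advantage at most `1/8`. -/
def SeedGen (c : ℝ) (A : Oracle) : Prop :=
  ∃ D G : List Bool → List Bool, IsFP A D ∧ IsFP A G ∧
    (∀ (m : ℕ) (s : List Bool), s.length = (D (un m)).length →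
      (G (pairBits (un m) s)).length = m) ∧
    ∀ᶠ m : ℕ in Filter.atTop, ((D (un m)).length : ℝ) ≤ c * Real.logb 2 m ∧
      (D (un m)).length < m ∧ ∀ C : Circuit, C.size ≤ m →
        |pr (D (un m)).length (fun s => C.eval A (G (pairBits (un m) s)) = true) -
          pr m (fun x => C.eval A x = true)| ≤ 1 / 8

/-! ### Null side -/

/-- Sharper count of circuits: a circuit of size at most `m` has at most `m` gates and at most
`2 m` wires in all, each given by `O(log m)` bits. -/
def P_count2 : Prop := ∃ K : ℕ, ∀ m : ℕ, ∃ s : Finset Circuit,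
  s.card ≤ 2 ^ (K * (m + 1) * Nat.size (m + 1)) ∧
  (∀ C ∈ s, ∀ A A' : Oracle, (∀ y : List Bool, y.length < m → A y = A' y) →
    ∀ x, C.eval A x = C.eval A' x) ∧
  ∀ C : Circuit, C.size ≤ m → ∃ C' ∈ s, ∀ (A : Oracle) (x : List Bool), x.length = m →
    C'.eval A x = C.eval A x

/-- the seed length `⌊(p/q) log₂ m⌋` -/
def sd (p q m : ℕ) : ℕ := Nat.log 2 (m ^ p) / q

/-- some circuit of size at most `m` tells the output of the generator with seeds of length
`sd p q m` from random strings -/
def BadG2 (p q m : ℕ) (A : Oracle) : Prop := ∃ C : Circuit, C.size ≤ m ∧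
  (1 / 8 : ℝ) < |(Nat.card {s : Fin (sd p q m) → Bool //
      C.eval A (List.ofFn fun j : Fin m => A (sadr (List.ofFn s) m j)) = true} : ℝ) /
      2 ^ (sd p q m) -
    (Nat.card {v : Fin m → Bool // C.eval A (List.ofFn v) = true} : ℝ) / 2 ^ m|

/-- as `P_gen` (`W2helper86/GF/Gen.lean`), with the seed length `sd p q m` -/
def P_gen2 : Prop := ∀ (p q : ℕ) (A : Oracle), 0 < q →
  (∀ᶠ m : ℕ in Filter.atTop, ¬ BadG2 p q m A) → SeedGen ((p : ℝ) / q) A

/-- the numbers for the generator -/
def P_asym2 : Prop := ∀ (f : ℕ → ℝ) (C : ℝ) (K p q : ℕ), 0 < q → (1 : ℝ) < (p : ℝ) / q →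
  C < (p : ℝ) / q →
  (∀ᶠ N : ℕ in Filter.atTop, ∃ N' ≥ N, f N' ≤ (Real.logb 2 N) ^ C) →
  ∀ᶠ m : ℕ in Filter.atTop, ∃ N : ℕ, 2 ^ (sd p q m + m + 1) ≤ N ∧
    (2 : ℝ) ^ (K * (m + 1) * Nat.size (m + 1)) *
      (2 * Real.exp (-(2 ^ (sd p q m) : ℝ) / 256)) * 2 ^ f N ≤ (1 / 2) ^ m

/-! ### The other side -/

/-- the number of bits that are looked at -/
noncomputable def kk (r : ℚ) (a : ℕ) : ℕ := ⌊(r : ℝ) * Real.logb 2 (a + 1 : ℕ)⌋₊ + 4

/-- the first `k` bits -/
def pref (k : ℕ) (x : List Bool) : List Bool := (List.range k).map fun i => x.getD i false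

open Classical in
/-- The value of a requirement (the machines `D` and `G` with the constant `r`) with output length
`a + 1`: the seed length and the set of the prefixes of the outputs of the generator. -/
noncomputable def rv (D G : Alg) (r : ℚ) (a : ℕ) (B : Oracle) : ℕ × Set (List Bool) :=
  (seedLen D (a + 1) B,
    if (seedLen D (a + 1) B : ℝ) ≤ (r : ℝ) * Real.logb 2 (a + 1 : ℕ) then
      {u | ∃ s : List Bool, s.length = seedLen D (a + 1) B ∧
        u = pref (kk r a) ((G.out B (pairBits (un (a + 1)) s)).getD [])}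
    else ∅)

/-- The value of a requirement depends on polynomially many bits (as `P_local`,
`W2helper56/GF/Loc.lean`). -/
def P_local2 : Prop := ∀ (D G : Alg) (r : ℚ), ∃ P : Polynomial ℕ, ∀ (a : ℕ) (B : Oracle),
  ∃ Q : Finset (List Bool), Q.card ≤ P.eval a ∧ (∀ q ∈ Q, q.length ≤ P.eval a) ∧
    ∀ B' : Oracle, (∀ q ∈ Q, B' q = B q) → rv D G r a B' = rv D G r a B

/-- The choice of the length `a`: `a = Nat.log 2 N + 1` for a suitable `N` from the hypothesis for
a `C` with `max 1 r < C < c`; `2 ^ kk r a ≤ 16 (a + 1) ^ r`. -/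
def P_stage2 : Prop := ∀ (f : ℕ → ℝ) (c : ℝ), 1 < c →
  (∀ C < c, ∃ᶠ N : ℕ in Filter.atTop, ∀ N' ≥ N, (Real.logb 2 N) ^ C < f N') →
  ∀ (r : ℚ), 0 < r → (r : ℝ) < c → ∀ (P : Polynomial ℕ) (prev : ℕ),
  ∃ a, prev < a ∧ kk r a ≤ a ∧ P.eval a + 1 ≤ 2 ^ (a - kk r a) ∧
    ∀ N : ℕ, 2 ^ a ≤ N → ((prev + 2 ^ kk r a + Nat.size (P.eval a) : ℕ) : ℝ) ≤ f N

/-- the circuit which asks for the string `key` followed by the first `k` bits of the input -/
def P_look2 : Prop := ∀ (key : List Bool) (k : ℕ), ∃ C : Circuit, C.size ≤ key.length + k + 1 ∧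
  ∀ (B : Oracle) (x : List Bool), C.eval B x = B (key ++ pref k x)

open Classical in
/-- Mass distribution with few choices: for every `N` there is a family of at most `2 ^ r` sets of
strings, each with at most `s` strings of number `< N`, `r + s ≤ f N + c`, such that for every `B`
the map `Φ` changes, among the strings with number `< N`, only strings of one of the sets of the
family. (As `not_null_of` in `Pool.Agent.H620R2.GaugeR.R8`, with `ranO_extends` for every set of
the family.) -/
def P_mass2 : Prop := ∀ (f : ℕ → ℝ) (Φ : Oracle → Oracle) (c : ℝ),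
  (∀ N : ℕ, ∃ (F : Finset (Set (List Bool))) (r s : ℕ), F.card ≤ 2 ^ r ∧
    (∀ T ∈ F, ((Finset.range N).filter (fun i => str i ∈ T)).card ≤ s) ∧
    ((r + s : ℕ) : ℝ) ≤ f N + c ∧
    ∀ B : Oracle, ∃ T ∈ F, ∀ i < N, str i ∉ T → Φ B (str i) = B (str i)) →
  ∀ O : Set Oracle, (∀ B, Φ B ∈ O) → ¬ Null f O

end Pool.Agent.W2helper58.SS
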